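import Mathlib

set_option autoImplicit false

open MeasureTheory Set Filter Topology
open scoped ENNReal

namespace Pool.Agent.P.MP_4d4d44_lc

/-- Fubini in the form used twice below. -/
theorem exists_null_section {α β : Type} [MeasurableSpace α] [MeasurableSpace β]
    (μ : Measure α) (ν : Measure β) [SFinite μ] [SFinite ν] {B : Set (α × β)}
    (hB : MeasurableSet B) (h : ∀ᵐ x ∂ν, μ {y | (y, x) ∈ B} = 0) {Y : Set α} (hY : μ Y ≠ 0) :
    ∃ y ∈ Y, ν {x | (y, x) ∈ B} = 0 := by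
  have h1 : ∀ᵐ x ∂ν, ∀ᵐ y ∂μ, (y, x) ∉ B := by
    filter_upwards [h] with x hx
    rw [ae_iff]
    simpa using hx
  have h2 : ∀ᵐ y ∂μ, ∀ᵐ x ∂ν, (y, x) ∉ B :=
    (Measure.ae_ae_comm (μ := μ) (ν := ν) (p := fun y x => (y, x) ∉ B) hB.compl).2 h1
  by_contra hcon
  push Not at hcon
  apply hY
  rw [ae_iff] at h2
  refine measure_mono_null (fun y hy => ?_) h2
  intro hy'
  apply hcon y hy
  rw [ae_iff] at hy'
  simpa using hy'

/-- The Sierpinski argument: a set totally preordered by a measurable relation, all of whose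
lower sections are null, is null. -/
theorem sierpinski {α : Type} [MeasurableSpace α] (ν : Measure α) [IsFiniteMeasure ν]
    {B : Set (α × α)} (hB : MeasurableSet B) {S : Set α}
    (htot : ∀ x ∈ S, ∀ y ∈ S, (x, y) ∈ B ∨ (y, x) ∈ B)
    (hsec : ∀ x ∈ S, ν (S ∩ {y | (y, x) ∈ B}) = 0) : ν S = 0 := by
  by_contra hS
  set H := toMeasurable ν S with hH
  have hHm : MeasurableSet H := measurableSet_toMeasurable _ _
  have hsecm : ∀ x, MeasurableSet {y | (y, x) ∈ B} := fun x =>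
    measurable_prodMk_right hB
  have hsecm' : ∀ y, MeasurableSet {x | (y, x) ∈ B} := fun y =>
    measurable_prodMk_left hB
  have h1 : ∀ x ∈ S, ν.restrict H {y | (y, x) ∈ B} = 0 := by
    intro x hx
    rw [Measure.restrict_apply (hsecm x), inter_comm, hH,
      Measure.measure_toMeasurable_inter (hsecm x) (measure_ne_top _ _)]
    exact hsec x hx
  have hm : Measurable fun x => ν.restrict H {y | (y, x) ∈ B} :=
    measurable_measure_prodMk_right (μ := ν.restrict H) hB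
  have hZ : MeasurableSet {x | ν.restrict H {y | (y, x) ∈ B} = 0} :=
    hm (measurableSet_singleton 0)
  have h2 : ∀ᵐ x ∂(ν.restrict H), ν.restrict H {y | (y, x) ∈ B} = 0 := by
    rw [ae_iff]
    have : {x | ¬ ν.restrict H {y | (y, x) ∈ B} = 0} =
        {x | ν.restrict H {y | (y, x) ∈ B} = 0}ᶜ := rfl
    rw [this, Measure.restrict_apply hZ.compl, inter_comm, hH,
      Measure.measure_toMeasurable_inter hZ.compl (measure_ne_top _ _)]
    have : S ∩ {x | ν.restrict (toMeasurable ν S) {y | (y, x) ∈ B} = 0}ᶜ = ∅ := by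
      ext x
      simp only [mem_inter_iff, mem_compl_iff, mem_ofPred_eq, mem_empty_iff_false, iff_false,
        not_and, not_not]
      exact fun hx => h1 x hx
    rw [this, measure_empty]
  have hSH : ν.restrict H S ≠ 0 := by
    rw [Measure.restrict_apply' hHm, inter_eq_left.2 (subset_toMeasurable _ _)]
    exact hS
  obtain ⟨y, hyS, hy⟩ := exists_null_section (ν.restrict H) (ν.restrict H) hB h2 hSH
  rw [Measure.restrict_apply (hsecm' y)] at hy
  apply hS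
  refine measure_mono_null (fun x hx => ?_) (measure_union_null (hsec y hyS) hy)
  rcases htot x hx y hyS with h | h
  · exact Or.inl ⟨hx, h⟩
  · exact Or.inr ⟨h, subset_toMeasurable _ _ hx⟩

/-- A Borel family of sets, coded by points of the Cantor space, whose members cover every null
set by a null set. -/
theorem exists_codes : ∃ G : Set ((ℕ → Bool) × (ℕ → Bool)), MeasurableSet G ∧
    ∀ (μ : Measure (ℕ → Bool)), IsFiniteMeasure μ → ∀ S : Set (ℕ → Bool), μ S = 0 →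
      ∃ a, S ⊆ {y | (y, a) ∈ G} ∧ μ {y | (y, a) ∈ G} = 0 := by
  classical
  obtain ⟨b, hbc, -, hb⟩ := TopologicalSpace.exists_countable_basis (ℕ → Bool)
  have hbne : b.Nonempty := by
    obtain ⟨v, hv, -⟩ := hb.exists_subset_of_mem_open (mem_univ (fun _ => true)) isOpen_univ
    exact ⟨v, hv⟩
  obtain ⟨B, hB⟩ := hbc.exists_eq_range hbne
  have hBo : ∀ m, IsOpen (B m) := fun m => hb.isOpen (hB ▸ mem_range_self m)
  refine ⟨⋂ n, ⋃ m, {p | p.2 (Nat.pair n m) = true} ∩ {p | p.1 ∈ B m}, ?_, ?_⟩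
  · refine MeasurableSet.iInter fun n => MeasurableSet.iUnion fun m => MeasurableSet.inter ?_ ?_
    · have : Measurable fun p : (ℕ → Bool) × (ℕ → Bool) => p.2 (Nat.pair n m) :=
        (measurable_pi_apply _).comp measurable_snd
      exact this (measurableSet_singleton true)
    · exact measurable_fst (hBo m).measurableSet
  · intro μ hμ S hS
    have : ∀ n : ℕ, ∃ U, S ⊆ U ∧ IsOpen U ∧ μ U < (n : ℝ≥0∞)⁻¹ := by
      intro n
      apply S.exists_isOpen_lt_of_lt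
      rw [hS]
      simp
    choose U hSU hUo hUμ using this
    refine ⟨fun k => decide (B k.unpair.2 ⊆ U k.unpair.1), ?_, ?_⟩
    · intro y hy
      simp only [mem_ofPred_eq, mem_iInter, mem_iUnion, mem_inter_iff, Nat.unpair_pair,
        decide_eq_true_eq]
      intro n
      obtain ⟨v, hv, hyv, hvU⟩ := hb.exists_subset_of_mem_open (hSU n hy) (hUo n)
      rw [hB] at hv
      obtain ⟨m, rfl⟩ := hv
      exact ⟨m, hvU, hyv⟩
    · apply le_antisymm _ zero_le
      apply ENNReal.le_of_forall_pos_le_add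
      intro ε hε _
      obtain ⟨n, hn⟩ := ENNReal.exists_inv_nat_lt (a := (ε : ℝ≥0∞)) (by simpa using hε.ne')
      rw [zero_add]
      refine le_trans (measure_mono ?_) ((hUμ n).trans hn).le
      intro y hy
      simp only [mem_ofPred_eq, mem_iInter, mem_iUnion, mem_inter_iff, Nat.unpair_pair,
        decide_eq_true_eq] at hy
      obtain ⟨m, h1, h2⟩ := hy n
      exact h1 h2

/-- There is a nonzero finite non-atomic Borel measure on the Cantor space. -/
theorem exists_measure : ∃ μ : Measure (ℕ → Bool), IsFiniteMeasure μ ∧ (∀ x, μ {x} = 0) ∧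
    μ univ ≠ 0 := by
  let e : ℝ ≃ᵐ (ℕ → Bool) :=
    PolishSpace.measurableEquivNatBoolOfNotCountable (not_countable_iff.2 inferInstance)
  refine ⟨(volume.restrict (Icc (0 : ℝ) 1)).map e, inferInstance, ?_, ?_⟩
  · intro x
    rw [MeasurableEquiv.map_apply]
    have : e ⁻¹' {x} = {e.symm x} := by
      ext y
      simp only [mem_preimage, mem_singleton_iff]
      constructor
      · rintro rfl
        simp
      · rintro rfl
        simp
    rw [this]
    exact measure_singleton _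
  · rw [MeasurableEquiv.map_apply]
    simp

/-- The Grzegorek and Reclaw construction. -/
theorem exists_grzegorek : ∃ (μ : Measure (ℕ → Bool)) (Y : Set (ℕ → Bool))
    (a : (ℕ → Bool) → (ℕ → Bool)), IsFiniteMeasure μ ∧ (∀ x, μ {x} = 0) ∧ μ Y ≠ 0 ∧
    ∀ (φ π : (ℕ → Bool) → (ℕ → Bool)), Measurable π → (∀ y, π (φ y) = a y) →
      ∀ (ν : Measure (ℕ → Bool)), IsFiniteMeasure ν → (∀ x, ν {x} = 0) → ν (φ '' Y) = 0 := by
  classical
  obtain ⟨G, hGm, hG⟩ := exists_codes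
  let P : Set (ℕ → Bool) → Prop := fun S =>
    ∃ μ : Measure (ℕ → Bool), IsFiniteMeasure μ ∧ (∀ x, μ {x} = 0) ∧ μ S ≠ 0
  have hne : {c : Cardinal.{0} | ∃ S, P S ∧ Cardinal.mk S = c}.Nonempty :=
    ⟨_, univ, exists_measure, rfl⟩
  obtain ⟨c, ⟨Y, hY, rfl⟩, hmin⟩ := Cardinal.lt_wf.has_min _ hne
  have hsmall : ∀ S : Set (ℕ → Bool), Cardinal.mk S < Cardinal.mk Y →
      ∀ (ν : Measure (ℕ → Bool)), IsFiniteMeasure ν → (∀ x, ν {x} = 0) → ν S = 0 := by
    intro S hS ν h1 h2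
    by_contra h
    exact hmin _ ⟨S, ⟨ν, h1, h2, h⟩, rfl⟩ hS
  obtain ⟨μ, hμ1, hμ2, hμ3⟩ := hY
  obtain ⟨r, wo, hr⟩ := Cardinal.exists_ord_eq Y
  have hseg : ∀ (y : Y) (φ : (ℕ → Bool) → (ℕ → Bool)),
      Cardinal.mk ((fun z : Y => φ z.1) '' {z : Y | r z y}) < Cardinal.mk Y := by
    intro y φ
    refine lt_of_le_of_lt Cardinal.mk_image_le ?_
    exact Cardinal.card_typein_lt (r := r) y hr
  have hcode : ∀ y : ℕ → Bool, ∃ a, ∀ hy : y ∈ Y,
      (∀ z : Y, r z ⟨y, hy⟩ → (z.1, a) ∈ G) ∧ μ {z | (z, a) ∈ G} = 0 := by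
    intro y
    by_cases hy : y ∈ Y
    · obtain ⟨a, ha1, ha2⟩ := hG μ hμ1 _ (hsmall _ (hseg ⟨y, hy⟩ id) μ hμ1 hμ2)
      exact ⟨a, fun _ => ⟨fun z hz => ha1 ⟨z, hz, rfl⟩, ha2⟩⟩
    · exact ⟨y, fun h => (hy h).elim⟩
  choose a ha using hcode
  refine ⟨μ, Y, a, hμ1, hμ2, hμ3, ?_⟩
  intro φ π hπ hφ ν hν1 hν2
  let B : Set ((ℕ → Bool) × (ℕ → Bool)) :=
    {p | (p.1, π p.2) ∈ G} ∩ {p | μ {z | (z, π p.2) ∈ G} = 0}
  have hBm : MeasurableSet B := by
    refine MeasurableSet.inter ?_ ?_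
    · exact (measurable_fst.prodMk (hπ.comp measurable_snd)) hGm
    · have : Measurable fun x => μ {z | (z, x) ∈ G} :=
        measurable_measure_prodMk_right (μ := μ) hGm
      exact (this.comp (hπ.comp measurable_snd)) (measurableSet_singleton 0)
  have hsec : ∀ᵐ x ∂ν, μ {y | (y, x) ∈ B} = 0 := by
    refine Eventually.of_forall fun x => ?_
    by_cases h : μ {z | (z, π x) ∈ G} = 0
    · exact measure_mono_null (fun y hy => hy.1) h
    · have : {y | (y, x) ∈ B} = ∅ := by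
        ext y
        simp only [mem_ofPred_eq, mem_empty_iff_false, iff_false]
        exact fun hy => h hy.2
      rw [this, measure_empty]
  obtain ⟨y, hyY, hy⟩ := exists_null_section μ ν hBm hsec hμ3
  have h1 := hsmall _ (hseg ⟨y, hyY⟩ φ) ν hν1 hν2
  refine measure_mono_null ?_ (measure_union_null (measure_union_null hy h1) (hν2 (φ y)))
  rintro _ ⟨z, hz, rfl⟩
  rcases trichotomous_of r ⟨y, hyY⟩ ⟨z, hz⟩ with h | h | h
  · refine Or.inl (Or.inl ⟨?_, ?_⟩)
    · change (y, π (φ z)) ∈ G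
      rw [hφ]
      exact (ha z hz).1 _ h
    · change μ {w | (w, π (φ z)) ∈ G} = 0
      rw [hφ]
      exact (ha z hz).2
  · refine Or.inr ?_
    have : y = z := congrArg Subtype.val h
    simp [this]
  · exact Or.inl (Or.inr ⟨⟨z, hz⟩, h, rfl⟩)

/-- An unbounded family of monotone functions, well ordered by eventual domination. -/
theorem exists_scale : ∃ R : Set (ℕ → ℕ), (∀ r ∈ R, Monotone r) ∧
    (∀ f : ℕ → ℕ, ∃ r ∈ R, ¬ r ≤ᶠ[atTop] f) ∧
    (∀ r ∈ R, ∀ s ∈ R, r ≤ᶠ[atTop] s ∨ s ≤ᶠ[atTop] r) ∧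
    (∀ r ∈ R, ∀ s ∈ R, r ≤ᶠ[atTop] s → ¬ WellOrderingRel s r) := by
  classical
  have hchain : ∃ c : Set (ℕ →o ℕ), IsChain (fun r s : ℕ →o ℕ => (r : ℕ → ℕ) ≤ᶠ[atTop] s) c ∧
      ∀ f : ℕ →o ℕ, ∃ r ∈ c, ¬ (r : ℕ → ℕ) ≤ᶠ[atTop] f := by
    by_contra hcon
    push Not at hcon
    obtain ⟨m, hm⟩ := exists_maximal_of_chains_bounded
      (r := fun r s : ℕ →o ℕ => (r : ℕ → ℕ) ≤ᶠ[atTop] s) hcon
      (fun h1 h2 => h1.trans h2)
    have h := hm ⟨fun n => m n + 1, fun a b hab => Nat.succ_le_succ (m.monotone hab)⟩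
      (Eventually.of_forall fun n => Nat.le_succ _)
    obtain ⟨n, hn⟩ := h.exists
    exact Nat.not_succ_le_self (m n) hn
  obtain ⟨c, hc, hunb⟩ := hchain
  let c' : Set (ℕ → ℕ) := (fun r : ℕ →o ℕ => (r : ℕ → ℕ)) '' c
  have htot : ∀ r ∈ c', ∀ s ∈ c', r ≤ᶠ[atTop] s ∨ s ≤ᶠ[atTop] r := by
    rintro _ ⟨r, hr, rfl⟩ _ ⟨s, hs, rfl⟩
    by_cases h : r = s
    · subst h
      exact Or.inl EventuallyLE.rfl
    · exact hc hr hs h
  refine ⟨{r | r ∈ c' ∧ ∀ s ∈ c', WellOrderingRel s r → ¬ r ≤ᶠ[atTop] s}, ?_, ?_, ?_, ?_⟩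
  · rintro _ ⟨⟨r, -, rfl⟩, -⟩
    exact r.monotone
  · intro f
    obtain ⟨r, hr, hrf⟩ := hunb (partialSups f)
    have hne : {s | s ∈ c' ∧ (r : ℕ → ℕ) ≤ᶠ[atTop] s}.Nonempty :=
      ⟨r, ⟨r, hr, rfl⟩, EventuallyLE.rfl⟩
    obtain ⟨s, ⟨hs1, hs2⟩, hmin⟩ :=
      (IsWellFounded.wf (r := (WellOrderingRel : (ℕ → ℕ) → (ℕ → ℕ) → Prop))).has_min _ hne
    refine ⟨s, ⟨hs1, fun t ht hts hst => hmin t ⟨ht, hs2.trans hst⟩ hts⟩, fun hsf => hrf ?_⟩
    exact (hs2.trans hsf).trans (Eventually.of_forall fun n => le_partialSups f n)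
  · intro r hr s hs
    exact htot r hr.1 s hs.1
  · intro r hr s hs hrs hsr
    exact hr.2 s hs.1 hsr hrs

end Pool.Agent.P.MP_4d4d44_lc
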