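import Mathlib
import Pool.Agent.P.MP_4d4d44_lc.Basic

set_option autoImplicit false

open MeasureTheory Set Filter Topology
open scoped ENNReal

namespace Pool.Agent.P.MP_4d4d44_lc

/-- The index bijection used to view the Cantor space as a product. -/
noncomputable def idx : ℕ ⊕ (Bool × ℕ × ℕ) ≃ ℕ :=
  letI := Denumerable.ofEncodableOfInfinite (ℕ ⊕ (Bool × ℕ × ℕ))
  Denumerable.eqv _

/-- The point of the Cantor space with first half y and second half z. -/
noncomputable def pt (y : ℕ → Bool) (z : Bool × ℕ × ℕ → Bool) : ℕ → Bool :=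
  fun n => Sum.elim y z (idx.symm n)

@[simp] theorem pt_inl (y : ℕ → Bool) (z : Bool × ℕ × ℕ → Bool) (i : ℕ) :
    pt y z (idx (Sum.inl i)) = y i := by simp [pt]

@[simp] theorem pt_inr (y : ℕ → Bool) (z : Bool × ℕ × ℕ → Bool) (p : Bool × ℕ × ℕ) :
    pt y z (idx (Sum.inr p)) = z p := by simp [pt]

theorem continuous_pt : Continuous fun p : (ℕ → Bool) × (Bool × ℕ × ℕ → Bool) => pt p.1 p.2 := by
  refine continuous_pi fun n => ?_
  unfold pt
  cases idx.symm n with
  | inl i => exact (continuous_apply i).comp continuous_fst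
  | inr p => exact (continuous_apply p).comp continuous_snd

theorem continuous_pt_left (z : Bool × ℕ × ℕ → Bool) : Continuous fun y => pt y z :=
  continuous_pt.comp (continuous_id.prodMk continuous_const)

theorem injective_pt_left (z : Bool × ℕ × ℕ → Bool) : Function.Injective fun y => pt y z := by
  intro y y' h
  funext i
  have := congrFun h (idx (Sum.inl i))
  simpa using this

/-- The joint code of a function r and a binary sequence a. -/
def code (r : ℕ → ℕ) (a : ℕ → Bool) : Bool × ℕ × ℕ → Bool :=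
  fun p => decide (r p.2.1 ≤ p.2.2) && (p.1 || a p.2.1)

/-- The finite approximations of codes. -/
def trunc (s : Σ k : ℕ, Fin k → ℕ × Bool) : Bool × ℕ × ℕ → Bool :=
  fun p => if h : p.2.1 < s.1 then
    decide ((s.2 ⟨p.2.1, h⟩).1 ≤ p.2.2) && (p.1 || (s.2 ⟨p.2.1, h⟩).2) else false

theorem code_eq_trunc {r : ℕ → ℕ} (hr : Monotone r) (a : ℕ → Bool) (k : ℕ) (p : Bool × ℕ × ℕ)
    (hp : p.2.2 < r k) : code r a p = trunc ⟨k, fun j => (r j, a j)⟩ p := by
  unfold code trunc
  by_cases h : p.2.1 < k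
  · simp [h]
  · have : ¬ r p.2.1 ≤ p.2.2 := by
      have := hr (not_lt.1 h)
      omega
    simp [h, this]

/-- Decoding of the binary sequence. -/
noncomputable def dec (x : ℕ → Bool) : ℕ → Bool :=
  fun k => @decide (∃ i, x (idx (Sum.inr (false, k, i))) = true) (Classical.propDecidable _)

theorem measurable_dec : Measurable dec := by
  refine measurable_pi_lambda _ fun k => measurable_to_bool ?_
  have : (fun x => dec x k) ⁻¹' {true} = ⋃ i, {x | x (idx (Sum.inr (false, k, i))) = true} := by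
    ext x
    simp [dec]
  rw [this]
  refine MeasurableSet.iUnion fun i => ?_
  have h : Measurable fun x : ℕ → Bool => x (idx (Sum.inr (false, k, i))) := measurable_pi_apply _
  exact h (measurableSet_singleton true)

theorem dec_pt (y : ℕ → Bool) (r : ℕ → ℕ) (a : ℕ → Bool) : dec (pt y (code r a)) = a := by
  funext k
  rw [Bool.eq_iff_iff]
  unfold dec
  rw [@decide_eq_true_iff _ (Classical.propDecidable _)]
  simp only [pt_inr, code, Bool.false_or, Bool.and_eq_true, decide_eq_true_eq]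
  exact ⟨fun ⟨_, _, h⟩ => h, fun h => ⟨r k, le_rfl, h⟩⟩

/-- The Borel relation that reads off eventual domination from codes. -/
def rel : Set ((ℕ → Bool) × (ℕ → Bool)) :=
  ⋃ N : ℕ, ⋂ k : ℕ, ⋂ i : ℕ, {p | N ≤ k → p.2 (idx (Sum.inr (true, k, i))) = true →
    p.1 (idx (Sum.inr (true, k, i))) = true}

theorem measurableSet_rel : MeasurableSet rel := by
  refine MeasurableSet.iUnion fun N => MeasurableSet.iInter fun k =>
    MeasurableSet.iInter fun i => ?_
  have h1 : Measurable fun p : (ℕ → Bool) × (ℕ → Bool) =>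
      (p.2 (idx (Sum.inr (true, k, i))), p.1 (idx (Sum.inr (true, k, i)))) :=
    ((measurable_pi_apply _).comp measurable_snd).prodMk
      ((measurable_pi_apply _).comp measurable_fst)
  exact h1 (Set.toFinite {q : Bool × Bool | N ≤ k → q.1 = true → q.2 = true}).measurableSet

theorem rel_pt (y y' : ℕ → Bool) (r r' : ℕ → ℕ) (a a' : ℕ → Bool) :
    (pt y (code r a), pt y' (code r' a')) ∈ rel ↔ r ≤ᶠ[atTop] r' := by
  simp only [rel, mem_iUnion, mem_iInter, mem_ofPred_eq, pt_inr, code, Bool.true_or,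
    Bool.and_true, decide_eq_true_eq, EventuallyLE, eventually_atTop]
  constructor
  · rintro ⟨N, hN⟩
    exact ⟨N, fun k hk => hN k (r' k) hk le_rfl⟩
  · rintro ⟨N, hN⟩
    exact ⟨N, fun k i hk h => (hN k hk).trans h⟩

/-- The tube lemma step. -/
theorem tube (μ : Measure (ℕ → Bool)) [IsFiniteMeasure μ] {F : Set (ℕ → Bool)} (hF : IsClosed F)
    (z : Bool × ℕ × ℕ → Bool) (hz : μ {y | pt y z ∈ F} = 0) {ε : ℝ≥0∞} (hε : 0 < ε) :
    ∃ (M : ℕ) (O : Set (ℕ → Bool)), μ O < ε ∧
      ∀ y z', (∀ p : Bool × ℕ × ℕ, p.2.2 < M → z' p = z p) → pt y z' ∈ F → y ∈ O := by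
  obtain ⟨O, hO1, hO2, hO3⟩ := Set.exists_isOpen_lt_of_lt (μ := μ) {y | pt y z ∈ F} ε
    (by rw [hz]; exact hε)
  have hn : IsOpen {p : (ℕ → Bool) × (Bool × ℕ × ℕ → Bool) | pt p.1 p.2 ∉ F} :=
    hF.isOpen_compl.preimage continuous_pt
  obtain ⟨U, V, -, hV, hU, hzV, hUV⟩ := generalized_tube_lemma
    (hO2.isClosed_compl.isCompact) (isCompact_singleton (x := z)) hn (by
      rintro ⟨y, w⟩ ⟨hy, hw⟩
      have hw' : w = z := hw
      subst hw'
      exact fun h => hy (hO1 h))
  obtain ⟨I, u, hu, hI⟩ := isOpen_pi_iff.1 hV z (hzV rfl)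
  refine ⟨I.sup (fun p => p.2.2) + 1, O, hO3, fun y z' hz' hy => ?_⟩
  by_contra hyO
  have : z' ∈ V := by
    apply hI
    intro p hp
    rw [hz' p (Nat.lt_succ_of_le (Finset.le_sup (f := fun p : Bool × ℕ × ℕ => p.2.2) hp))]
    exact (hu p hp).2
  exact hUV (mk_mem_prod (hU hyO) this) hy

theorem bound (μ : Measure (ℕ → Bool)) [IsFiniteMeasure μ] {F : Set (ℕ → Bool)} (hF : IsClosed F)
    (hz : ∀ s, μ {y | pt y (trunc s) ∈ F} = 0) {ε : ℝ≥0∞} (hε : ε ≠ 0) :
    ∃ f : ℕ → ℕ, ∀ r : ℕ → ℕ, Monotone r → (∃ k, f k < r k) →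
      μ {y | ∃ a, pt y (code r a) ∈ F} ≤ ε := by
  classical
  obtain ⟨δ, hδ, hsum⟩ := ENNReal.exists_pos_sum_of_countable' hε (Σ k : ℕ, Fin k → ℕ × Bool)
  choose M O hO hM using fun s => tube μ hF (trunc s) (hz s) (hδ s)
  let H : ℕ → ℕ → ℕ := fun k L =>
    (Fintype.piFinset fun _ : Fin k => Finset.range (L + 1) ×ˢ (Finset.univ : Finset Bool)).sup
      fun σ => M ⟨k, σ⟩
  let g : ℕ → ℕ := fun n => Nat.rec 0 (fun k L => max L (H k L)) n
  have hg : ∀ k, g (k + 1) = max (g k) (H k (g k)) := fun k => rfl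
  have hgm : Monotone g := monotone_nat_of_le_succ fun k => by rw [hg]; exact le_max_left _ _
  refine ⟨fun k => g (k + 1), fun r hr hex => ?_⟩
  let k := Nat.find hex
  have hk : g (k + 1) < r k := Nat.find_spec hex
  have hlt : ∀ j < k, r j ≤ g k := fun j hj =>
    (not_lt.1 (Nat.find_min hex hj)).trans (hgm hj)
  refine le_trans (measure_mono (t := ⋃ s, O s) ?_) ((measure_iUnion_le _).trans
    ((ENNReal.tsum_le_tsum fun s => (hO s).le).trans hsum.le))
  rintro y ⟨a, ha⟩
  refine mem_iUnion.2 ⟨⟨k, fun j => (r j, a j)⟩, hM _ y _ (fun p hp => ?_) ha⟩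
  apply code_eq_trunc hr
  have h1 : M ⟨k, fun j => (r j, a j)⟩ ≤ H k (g k) := by
    apply Finset.le_sup (f := fun σ : Fin k → ℕ × Bool => M ⟨k, σ⟩)
    simp only [Fintype.mem_piFinset, Finset.mem_product, Finset.mem_range, Finset.mem_univ,
      and_true]
    exact fun j => Nat.lt_succ_of_le (hlt j j.2)
  have h2 : H k (g k) ≤ g (k + 1) := by rw [hg]; exact le_max_right _ _
  omega

theorem main : ∃ A : Set (ℕ → Bool),
    (∀ ν : Measure (ℕ → Bool), IsFiniteMeasure ν → (∀ x, ν {x} = 0) → ν A = 0) ∧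
    ∃ ν : Measure (ℕ → Bool), IsFiniteMeasure ν ∧ (∀ x, ν {x} = 0) ∧
      ∀ F : ℕ → Set (ℕ → Bool), (∀ n, IsClosed (F n)) → A ⊆ ⋃ n, F n → ν (⋃ n, F n) ≠ 0 := by
  classical
  obtain ⟨μ, Y, a, hμ1, hμ2, hμ3, hY⟩ := exists_grzegorek
  obtain ⟨R, hRm, hRu, hRt, hRw⟩ := exists_scale
  let W : (ℕ → ℕ) → Set (ℕ → Bool) := fun r => (fun y => pt y (code r (a y))) '' Y
  refine ⟨⋃ r ∈ R, W r, ?_, ?_⟩
  · intro ν hν1 hν2
    have hW : ∀ r, ν (W r) = 0 := fun r =>
      hY _ dec measurable_dec (fun y => dec_pt y r (a y)) ν hν1 hν2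
    have key : ∀ T : Set (ℕ → ℕ), T ⊆ R →
        (∀ r ∈ T, ν (⋃ s ∈ {s ∈ R | WellOrderingRel s r}, W s) = 0) → ν (⋃ r ∈ T, W r) = 0 := by
      intro T hT h
      apply sierpinski ν measurableSet_rel
      · intro x hx x' hx'
        simp only [mem_iUnion] at hx hx'
        obtain ⟨r, hr, y, -, rfl⟩ := hx
        obtain ⟨r', hr', y', -, rfl⟩ := hx'
        rw [rel_pt, rel_pt]
        exact hRt r (hT hr) r' (hT hr')
      · intro x hx
        simp only [mem_iUnion] at hx
        obtain ⟨r, hr, y, -, rfl⟩ := hx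
        refine measure_mono_null ?_ (measure_union_null (h r hr) (hW r))
        rintro x' ⟨hx', hrel⟩
        simp only [mem_iUnion] at hx'
        obtain ⟨r', hr', y', hy', rfl⟩ := hx'
        have hle : r' ≤ᶠ[atTop] r := (rel_pt _ _ _ _ _ _).1 hrel
        rcases trichotomous_of WellOrderingRel r' r with h' | h' | h'
        · exact Or.inl (mem_iUnion₂.2 ⟨r', ⟨hT hr', h'⟩, y', hy', rfl⟩)
        · subst h'
          exact Or.inr ⟨y', hy', rfl⟩
        · exact (hRw r' (hT hr') r (hT hr) hle h').elim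
    have hind : ∀ r : ℕ → ℕ, ν (⋃ s ∈ {s ∈ R | WellOrderingRel s r}, W s) = 0 := by
      intro r
      induction r using
        (IsWellFounded.wf (r := (WellOrderingRel : (ℕ → ℕ) → (ℕ → ℕ) → Prop))).induction with
      | _ r ih => exact key _ (fun s hs => hs.1) fun s hs => ih s hs.2
    exact key R subset_rfl fun r _ => hind r
  · obtain ⟨c, hc, hsum⟩ := ENNReal.exists_pos_sum_of_countable' one_ne_zero
      (Σ k : ℕ, Fin k → ℕ × Bool)
    have hmeas : ∀ z, Measurable fun y => pt y z := fun z => (continuous_pt_left z).measurable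
    let ν : Measure (ℕ → Bool) :=
      Measure.sum fun s : Σ k : ℕ, Fin k → ℕ × Bool => c s • μ.map fun y => pt y (trunc s)
    have hν : ∀ S, MeasurableSet S → ν S = ∑' s, c s * μ {y | pt y (trunc s) ∈ S} := by
      intro S hS
      rw [Measure.sum_apply _ hS]
      refine tsum_congr fun s => ?_
      rw [Measure.smul_apply, Measure.map_apply (hmeas _) hS]
      rfl
    refine ⟨ν, ⟨?_⟩, ?_, ?_⟩
    · rw [hν _ MeasurableSet.univ]
      simp only [mem_univ, ofPred_true]
      rw [ENNReal.tsum_mul_right]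
      exact ENNReal.mul_lt_top (hsum.trans ENNReal.one_lt_top) (measure_lt_top _ _)
    · intro x
      rw [hν _ (measurableSet_singleton x)]
      refine ENNReal.tsum_eq_zero.2 fun s => ?_
      have : ({y | pt y (trunc s) ∈ ({x} : Set (ℕ → Bool))} : Set (ℕ → Bool)).Subsingleton := by
        intro y hy y' hy'
        apply injective_pt_left (trunc s)
        exact (mem_singleton_iff.1 hy).trans (mem_singleton_iff.1 hy').symm
      rcases this.eq_empty_or_singleton with h | ⟨y, h⟩
      · rw [h, measure_empty, mul_zero]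
      · rw [h, hμ2, mul_zero]
    · intro F hF hsub hnull
      have hsec : ∀ j s, μ {y | pt y (trunc s) ∈ F j} = 0 := by
        intro j s
        have h0 : ν (F j) = 0 := measure_mono_null (subset_iUnion F j) hnull
        rw [hν _ (hF j).measurableSet, ENNReal.tsum_eq_zero] at h0
        exact (mul_eq_zero.1 (h0 s)).resolve_left (hc s).ne'
      have hb : ∀ j n : ℕ, ∃ f : ℕ → ℕ, ∀ r : ℕ → ℕ, Monotone r → (∃ k, f k < r k) →
          μ {y | ∃ a, pt y (code r a) ∈ F j} ≤ (n : ℝ≥0∞)⁻¹ := fun j n =>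
        bound μ (hF j) (hsec j) (by simp)
      choose f hf using hb
      obtain ⟨r, hrR, hr⟩ := hRu fun k =>
        (Finset.range (k + 1) ×ˢ Finset.range (k + 1)).sup fun p => f p.1 p.2 k
      have hN : ∀ j, μ {y | ∃ a, pt y (code r a) ∈ F j} = 0 := by
        intro j
        apply le_antisymm _ zero_le
        apply ENNReal.le_of_forall_pos_le_add
        intro ε hε _
        obtain ⟨n, hn⟩ := ENNReal.exists_inv_nat_lt (a := (ε : ℝ≥0∞)) (by simpa using hε.ne')
        rw [zero_add]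
        refine (hf j n r (hRm r hrR) ?_).trans hn.le
        by_contra hcon
        push Not at hcon
        apply hr
        filter_upwards [eventually_ge_atTop (max j n)] with k hk
        refine (hcon k).trans ?_
        apply Finset.le_sup (f := fun p : ℕ × ℕ => f p.1 p.2 k) (b := (j, n))
        simp only [Finset.mem_product, Finset.mem_range]
        constructor
        · exact Nat.lt_succ_of_le ((le_max_left _ _).trans hk)
        · exact Nat.lt_succ_of_le ((le_max_right _ _).trans hk)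
      apply hμ3
      refine measure_mono_null ?_ (measure_iUnion_null hN)
      intro y hy
      have : pt y (code r (a y)) ∈ ⋃ n, F n := hsub (mem_iUnion₂.2 ⟨r, hrR, y, hy, rfl⟩)
      obtain ⟨j, hj⟩ := mem_iUnion.1 this
      exact mem_iUnion.2 ⟨j, a y, hj⟩

end Pool.Agent.P.MP_4d4d44_lc
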